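import Pool.Agent.Work.MP_35c45d_lc.MPBRed

/-!
# MP_35c45d_lc : border determinants with entries of degree at most `d`  (helper18)

Substitution, passage to an exact determinant, reduction of a multiple of a prime.
-/

set_option autoImplicit false

namespace Pool.Agent.Work.MP_35c45d_lc.DH

open MvPolynomial Filter Topology Pool.Agent.Work.MP_35c45d_lc.SQ

/-- `f` is a coefficientwise limit of scalar multiples of determinants of `n × n` matrices of
polynomials of total degree at most `d`. -/
def BorderDet (d n : ℕ) {ι : Type} (f : MvPolynomial ι ℂ) : Prop :=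
  ∃ (A : ℕ → Matrix (Fin n) (Fin n) (MvPolynomial ι ℂ)) (γ : ℕ → ℂ),
    (∀ s i j, (A s i j).totalDegree ≤ d) ∧
    ∀ e, Tendsto (fun s => coeff e (C (γ s) * (A s).det)) atTop (𝓝 (coeff e f))

theorem totalDegree_det_le' {κ : Type} {n d : ℕ} (A : Matrix (Fin n) (Fin n) (MvPolynomial κ ℂ))
    (hA : ∀ i j, (A i j).totalDegree ≤ d) : A.det.totalDegree ≤ n * d := by
  classical
  rw [Matrix.det_apply]
  refine totalDegree_finsetSum_le fun σ _ => ?_
  refine (totalDegree_smul_le _ _).trans ?_
  refine (totalDegree_finsetProd _ _).trans ?_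
  refine (Finset.sum_le_sum fun i _ => hA (σ i) i).trans ?_
  simp

theorem totalDegree_smul_det_le' {κ : Type} {n d : ℕ}
    (A : Matrix (Fin n) (Fin n) (MvPolynomial κ ℂ))
    (hA : ∀ i j, (A i j).totalDegree ≤ d) (γ : ℂ) : (C γ * A.det).totalDegree ≤ n * d := by
  refine (totalDegree_mul _ _).trans ?_
  rw [totalDegree_C, zero_add]
  exact totalDegree_det_le' A hA

/-- substitution of affine forms -/
theorem totalDegree_aeval_le' {ι κ : Type} {d : ℕ} (p : MvPolynomial ι ℂ)
    (hp : p.totalDegree ≤ d) (φ : ι → MvPolynomial κ ℂ) (hφ : ∀ i, (φ i).totalDegree ≤ 1) :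
    (aeval φ p).totalDegree ≤ d := by
  classical
  rw [aeval_def, eval₂_eq]
  refine totalDegree_finsetSum_le fun m hm => ?_
  refine (totalDegree_mul _ _).trans ?_
  rw [algebraMap_eq, totalDegree_C, zero_add]
  refine (totalDegree_finsetProd _ _).trans ?_
  have h1 : ∀ i ∈ m.support, (φ i ^ m i).totalDegree ≤ m i := fun i _ =>
    (totalDegree_pow _ _).trans (by
      have := Nat.mul_le_mul_left (m i) (hφ i)
      rwa [Nat.mul_one] at this)
  refine (Finset.sum_le_sum h1).trans ?_
  exact (le_totalDegree hm).trans hp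

section linear

variable {ι : Type} [Fintype ι]

theorem BorderDet.subst {κ : Type} {d n : ℕ} {f : MvPolynomial ι ℂ} (hf : BorderDet d n f)
    (φ : ι → MvPolynomial κ ℂ) (hφ : ∀ i, (φ i).totalDegree ≤ 1) :
    BorderDet d n (aeval φ f) := by
  classical
  obtain ⟨A, γ, hA, hlim⟩ := hf
  refine ⟨fun s => (A s).map (aeval φ), γ, fun s i j => ?_, fun e => ?_⟩
  · exact totalDegree_aeval_le' _ (hA s i j) φ hφ
  · have h1 : ∀ s, C (γ s) * ((A s).map (aeval φ)).det = aeval φ (C (γ s) * (A s).det) := by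
      intro s
      rw [map_mul, aeval_C, algebraMap_eq, AlgHom.map_det]
      rfl
    simp only [h1]
    exact tendsto_linear (n * d) _ f (fun s => totalDegree_smul_det_le' _ (hA s) _) hlim
      ((lcoeff ℂ e).comp (aeval φ).toLinearMap)

end linear

/-- `K` nondegenerate critical points of a border determinant persist to `K` nondegenerate critical
points of one of the approximating determinants. -/
theorem exists_det_of_borderDet {ι κ : Type} [Fintype ι] [Fintype κ] {d n : ℕ}
    {f : MvPolynomial ι ℂ} (hf : BorderDet d n f) {c : ι → ℂ} (hc : c ≠ 0) {x : κ → ι → ℂ}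
    (hinj : Function.Injective x) (hx : ∀ j, IsCrit f c (x j)) :
    ∃ (A : Matrix (Fin n) (Fin n) (MvPolynomial ι ℂ)) (γ : ℂ),
      (∀ i j, (A i j).totalDegree ≤ d) ∧ ∃ x' : κ → ι → ℂ, Function.Injective x' ∧
        ∀ j, IsCrit (C γ * A.det) c (x' j) := by
  obtain ⟨A, γ, hA, hlim⟩ := hf
  have hdeg : ∀ s, (C (γ s) * (A s).det).totalDegree ≤ n * d :=
    fun s => totalDegree_smul_det_le' _ (hA s) _
  obtain ⟨s, x', h1, h2⟩ :=
    (persist_many (n * d) f (fun s => C (γ s) * (A s).det) hdeg hlim c hc x hinj hx).exists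
  exact ⟨A s, γ s, hA s, x', h1, h2⟩

theorem BorderDet.succ {σ : Type} {d n : ℕ} {f : MvPolynomial σ ℂ} (hf : BorderDet d n f) :
    BorderDet d (n + 1) f := by
  classical
  obtain ⟨A, γ, hA, hlim⟩ := hf
  refine ⟨fun s => (Matrix.fromBlocks (A s) 0 0 (1 : Matrix (Fin 1) (Fin 1) _)).submatrix
    finSumFinEquiv.symm finSumFinEquiv.symm, γ, fun s i j => ?_, fun e => ?_⟩
  · change ((Matrix.fromBlocks (A s) 0 0 (1 : Matrix (Fin 1) (Fin 1) _))
      (finSumFinEquiv.symm i) (finSumFinEquiv.symm j)).totalDegree ≤ d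
    rcases finSumFinEquiv.symm i with i | i <;> rcases finSumFinEquiv.symm j with j | j
    · exact hA s i j
    · simp
    · simp
    · rw [Matrix.fromBlocks_apply₂₂, Matrix.one_apply]
      split_ifs <;> simp
  · have h1 : ∀ s, ((Matrix.fromBlocks (A s) 0 0 (1 : Matrix (Fin 1) (Fin 1) _)).submatrix
        finSumFinEquiv.symm finSumFinEquiv.symm).det = (A s).det := by
      intro s
      rw [Matrix.det_submatrix_equiv_self, Matrix.det_fromBlocks_zero₂₁, Matrix.det_one, mul_one]
    simp only [h1]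
    exact hlim e

theorem degree_bump {σ : Type} {d n : ℕ} {A : Matrix (Fin n) (Fin n) (MvPolynomial σ ℂ)}
    (hA : ∀ i j, (A i j).totalDegree ≤ d) (k l : Fin n) (t : ℂ) (i j : Fin n) :
    (MP.bump A k l t i j).totalDegree ≤ d := by
  unfold MP.bump
  by_cases hi : i = k
  · subst hi
    rw [Matrix.updateRow_self, Pi.add_apply, Pi.smul_apply, smul_eq_mul]
    refine (totalDegree_add _ _).trans (max_le (hA _ _) ?_)
    refine (totalDegree_mul _ _).trans ?_
    rw [totalDegree_C, zero_add]
    by_cases hj : j = l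
    · subst hj; simp
    · simp [hj]
  · rw [Matrix.updateRow_ne hi]
    exact hA _ _

/-- from a multiple of a prime `P` to a pencil `F' + r h`, `P ∤ h` -/
theorem border_reduce {σ : Type} [Fintype σ] {P : MvPolynomial σ ℂ} (hP : Prime P) {d n : ℕ}
    {F : MvPolynomial σ ℂ} (hF : BorderDet d n F) (h0 : F ≠ 0) (hd : P ∣ F) :
    ∃ F' h : MvPolynomial σ ℂ, F' ≠ 0 ∧ P ∣ F' ∧ ¬ P ∣ h ∧
      ∀ r : ℂ, BorderDet d n (F' + C r * h) := by
  classical
  induction n generalizing F with
  | zero =>
    exfalso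
    obtain ⟨A, γ, hA, hlim⟩ := hF
    have hz : ∀ e, e ≠ 0 → coeff e F = 0 := by
      intro e he0
      have h1 := hlim e
      have h2 : ∀ s, coeff e (C (γ s) * (A s).det) = 0 := by
        intro s
        rw [Matrix.det_isEmpty, mul_one, coeff_C, if_neg (Ne.symm he0)]
      simp only [h2] at h1
      exact (tendsto_nhds_unique h1 tendsto_const_nhds)
    have hF1 : F = C (coeff 0 F) := by
      ext e
      by_cases he0 : e = 0
      · subst he0; simp
      · rw [hz e he0, coeff_C, if_neg (Ne.symm he0)]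
    have hc : coeff 0 F ≠ 0 := fun h => h0 (by rw [hF1, h, C_0])
    have hu : IsUnit F := by
      rw [hF1]
      exact IsUnit.map C (isUnit_iff_ne_zero.2 hc)
    exact hP.not_isUnit (isUnit_of_dvd_unit hd hu)
  | succ n ih =>
    obtain ⟨A, γ, hA, hlim⟩ := hF
    -- a nonzero coefficient of the limit
    obtain ⟨e0, he0⟩ : ∃ e, coeff e F ≠ 0 := by
      by_contra hcon
      push Not at hcon
      exact h0 (by ext e; rw [hcon, coeff_zero])
    have hev : ∀ᶠ s in atTop, coeff e0 (C (γ s) * (A s).det) ≠ 0 :=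
      (hlim e0).eventually_ne he0
    have hγ : ∀ᶠ s in atTop, γ s ≠ 0 := by
      filter_upwards [hev] with s hs h
      exact hs (by rw [h, C_0, zero_mul, coeff_zero])
    have hadj : ∀ᶠ s in atTop, ∃ p : Fin (n + 1) × Fin (n + 1),
        (A s).adjugate p.1 p.2 ≠ 0 := by
      filter_upwards [hev] with s hs
      by_contra hcon
      push Not at hcon
      have h1 : (A s).adjugate = 0 := Matrix.ext fun i j => hcon (i, j)
      have h2 : (A s).det = 0 := by
        have h3 := Matrix.mul_adjugate (A s)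
        rw [h1, mul_zero] at h3
        have h4 := congrFun (congrFun h3 0) 0
        simpa using h4.symm
      exact hs (by rw [h2, mul_zero, coeff_zero])
    have hsub : ∀ s (p : Fin (n + 1) × Fin (n + 1)), (A s).adjugate p.1 p.2 =
        C ((-1 : ℂ) ^ (p.2 + p.1 : ℕ)) * ((A s).submatrix p.2.succAbove p.1.succAbove).det := by
      intro s p
      rw [Matrix.adjugate_fin_succ_eq_det_submatrix]
      simp
    have hdeg : ∀ s (p : Fin (n + 1) × Fin (n + 1)),
        ((A s).adjugate p.1 p.2).totalDegree ≤ n * d := by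
      intro s p
      rw [hsub]
      exact totalDegree_smul_det_le' _ (fun i j => hA s _ _) _
    obtain ⟨ψ, p, κ, h, hψ, hκ, hh, hl⟩ := MP.exists_normal_limit
      (q := fun s (p : Fin (n + 1) × Fin (n + 1)) => (A s).adjugate p.1 p.2) hdeg hadj
    -- the limit of the cofactors
    have hb : BorderDet d n h := by
      refine ⟨fun s => (A (ψ s)).submatrix p.2.succAbove p.1.succAbove,
        fun s => κ s * (-1 : ℂ) ^ (p.2 + p.1 : ℕ), fun s i j => hA _ _ _, fun e => ?_⟩
      refine (hl e).congr fun s => ?_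
      rw [hsub, C_mul, mul_assoc]
    by_cases hPh : P ∣ h
    · obtain ⟨F', h', h1, h2, h3, h4⟩ := ih hb hh hPh
      exact ⟨F', h', h1, h2, h3, fun r => BorderDet.succ (h4 r)⟩
    · refine ⟨F, h, h0, hd, hPh, fun r => ?_⟩
      refine ⟨fun s => MP.bump (A (ψ s)) p.2 p.1 (r * κ s / γ (ψ s)), fun s => γ (ψ s),
        fun s i j => degree_bump (hA _) p.2 p.1 _ i j, fun e => ?_⟩
      · have h1 : Tendsto (fun s => coeff e (C (γ (ψ s)) * (A (ψ s)).det)) atTop
            (𝓝 (coeff e F)) := (hlim e).comp hψ.tendsto_atTop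
        have h2 := h1.add ((hl e).const_mul r)
        rw [coeff_add, coeff_C_mul]
        refine h2.congr' ?_
        filter_upwards [hψ.tendsto_atTop.eventually hγ] with s hs
        rw [MP.det_bump, mul_add, coeff_add]
        congr 1
        rw [← mul_assoc, ← C_mul, ← coeff_C_mul, ← mul_assoc, ← C_mul]
        congr 3
        field_simp

end Pool.Agent.Work.MP_35c45d_lc.DH
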