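import Pool.Agent.Work.MP_35c45d_lc.DH.Prod

/-! Special cases of `main_prod`: the earlier form (affine entries, at most `R` non-constant rows),
its version for entries of degree at most `d` and at most `R` rows and columns with non-constant
entries, and square matrices of size `n`. -/

set_option autoImplicit false

namespace Pool.Agent.Work.MP_35c45d_lc.DH

open MvPolynomial Filter Topology Pool.Agent.Work.MP_35c45d_lc.SQ

/-- `N × N` matrices with entries of degree at most `d`, all entries outside the rows in `S` and the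
columns in `T` constant, are `A₀ + P K` with inner dimension `|S| + |T|`. -/
theorem lines_prod {ι : Type} {N R d : ℕ} (A : Matrix (Fin N) (Fin N) (MvPolynomial ι ℂ))
    (hA : ∀ i j, (A i j).totalDegree ≤ d) (S T : Finset (Fin N)) (hR : S.card + T.card ≤ R)
    (hc : ∀ i ∉ S, ∀ j ∉ T, ∃ a : ℂ, A i j = C a) :
    ∃ (A₀ : Fin N → Fin N → ℂ) (P : Fin N → Fin R → MvPolynomial ι ℂ)
      (K : Fin R → Fin N → MvPolynomial ι ℂ),
      (∀ i r, (P i r).totalDegree ≤ d) ∧ (∀ r j, (K r j).totalDegree ≤ d) ∧
      ∀ i j, A i j = C (A₀ i j) + ∑ r, P i r * K r j := by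
  classical
  -- labels of the lines
  obtain ⟨e, he⟩ : ∃ e : (S ⊕ T) → Fin R, Function.Injective e := by
    have h1 : Fintype.card (S ⊕ T) ≤ Fintype.card (Fin R) := by
      rw [Fintype.card_sum, Fintype.card_coe, Fintype.card_coe, Fintype.card_fin]
      exact hR
    obtain ⟨e⟩ := Function.Embedding.nonempty_of_card_le h1
    exact ⟨e, e.injective⟩
  let P' : Fin N → (S ⊕ T) → MvPolynomial ι ℂ := fun i r =>
    Sum.elim (fun a : S => if i = a then 1 else 0)
      (fun b : T => if i ∈ S then 0 else A i b) r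
  let K' : (S ⊕ T) → Fin N → MvPolynomial ι ℂ := fun r j =>
    Sum.elim (fun a : S => A a j) (fun b : T => if j = b then 1 else 0) r
  let P : Fin N → Fin R → MvPolynomial ι ℂ := fun i =>
    Function.extend e (P' i) 0
  let K : Fin R → Fin N → MvPolynomial ι ℂ := fun r j =>
    Function.extend e (fun l => K' l j) 0 r
  let A₀ : Fin N → Fin N → ℂ := fun i j =>
    if i ∈ S then 0 else if j ∈ T then 0 else coeff 0 (A i j)
  have hsum : ∀ i j, ∑ r, P i r * K r j = ∑ l, P' i l * K' l j := by
    intro i j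
    have h2 : ∑ r ∈ Finset.univ.image e, P i r * K r j = ∑ l, P' i l * K' l j := by
      rw [Finset.sum_image (fun a _ b _ h => he h)]
      refine Finset.sum_congr rfl fun l _ => ?_
      simp only [P, K]
      rw [he.extend_apply, he.extend_apply]
    rw [← h2]
    symm
    refine Finset.sum_subset (Finset.subset_univ _) fun r _ hr => ?_
    have h1 : ¬ ∃ l, e l = r := by
      rintro ⟨l, hl⟩
      exact hr (Finset.mem_image.2 ⟨l, Finset.mem_univ _, hl⟩)
    simp only [P]
    rw [Function.extend_apply' _ _ _ h1]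
    simp
  refine ⟨A₀, P, K, fun i r => ?_, fun r j => ?_, fun i j => ?_⟩
  · by_cases h : ∃ l, e l = r
    · obtain ⟨l, rfl⟩ := h
      simp only [P]
      rw [he.extend_apply]
      rcases l with a | b
      · simp only [P', Sum.elim_inl]
        split_ifs <;> simp
      · simp only [P', Sum.elim_inr]
        split_ifs
        · simp
        · exact hA _ _
    · simp only [P]
      rw [Function.extend_apply' _ _ _ h]
      simp
  · by_cases h : ∃ l, e l = r
    · obtain ⟨l, rfl⟩ := h
      simp only [K]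
      rw [he.extend_apply]
      rcases l with a | b
      · exact hA _ _
      · simp only [K', Sum.elim_inr]
        split_ifs <;> simp
    · simp only [K]
      rw [Function.extend_apply' _ _ _ h]
      simp
  · rw [hsum, Fintype.sum_sum_type]
    simp only [P', K', Sum.elim_inl, Sum.elim_inr]
    by_cases hi : i ∈ S
    · have h1 : ∑ a : S, (if i = (a : Fin N) then (1 : MvPolynomial ι ℂ) else 0) * A a j = A i j := by
        rw [Finset.sum_eq_single (⟨i, hi⟩ : S)]
        · simp
        · intro b _ hb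
          rw [if_neg (fun h => hb (Subtype.ext h.symm)), zero_mul]
        · intro h
          exact absurd (Finset.mem_univ _) h
      rw [h1]
      simp [A₀, hi]
    · have h1 : ∑ a : S, (if i = (a : Fin N) then (1 : MvPolynomial ι ℂ) else 0) * A a j = 0 := by
        refine Finset.sum_eq_zero fun a _ => ?_
        rw [if_neg (fun h : i = (a : Fin N) => hi (by rw [h]; exact a.2)), zero_mul]
      rw [h1, zero_add]
      simp only [if_neg hi]
      by_cases hj : j ∈ T
      · have h2 : ∑ b : T, A i b * (if j = (b : Fin N) then (1 : MvPolynomial ι ℂ) else 0) =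
            A i j := by
          rw [Finset.sum_eq_single (⟨j, hj⟩ : T)]
          · simp
          · intro b _ hb
            rw [if_neg (fun h => hb (Subtype.ext h.symm)), mul_zero]
          · intro h
            exact absurd (Finset.mem_univ _) h
        rw [h2]
        simp [A₀, hi, hj]
      · have h2 : ∑ b : T, A i b * (if j = (b : Fin N) then (1 : MvPolynomial ι ℂ) else 0) = 0 := by
          refine Finset.sum_eq_zero fun b _ => ?_
          rw [if_neg (fun h : j = (b : Fin N) => hj (by rw [h]; exact b.2)), mul_zero]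
        rw [h2, add_zero]
        obtain ⟨a, ha⟩ := hc i hi j hj
        simp [A₀, hi, hj, ha]

/-- entries of degree at most `d`, constant outside `R` rows and columns -/
theorem main_lines (ε : ℝ) (hε : 0 < ε) : ∃ c : ℝ, 0 < c ∧ ∀ m d R : ℕ, 1 ≤ m → 1 ≤ d →
    ∀ (N : ℕ → ℕ) (A : ∀ s, Matrix (Fin (N s)) (Fin (N s)) (MvPolynomial (Fin m × Fin m) ℂ))
      (F : MvPolynomial (Fin m × Fin m) ℂ),
      (∀ s i j, (A s i j).totalDegree ≤ d) →
      (∀ s, ∃ S T : Finset (Fin (N s)), S.card + T.card ≤ R ∧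
        ∀ i ∉ S, ∀ j ∉ T, ∃ a : ℂ, A s i j = C a) →
      (∀ e, Tendsto (fun s => coeff e (A s).det) atTop (𝓝 (coeff e F))) →
      F ≠ 0 → permPoly m ∣ F → c * (m : ℝ) ^ (3 - ε) ≤ d * R + (d - 1) * (m : ℝ) ^ 2 := by
  obtain ⟨c, hc, h⟩ := main_prod ε hε
  refine ⟨c, hc, fun m d R hm hd N A F hA hS hlim hF0 hPF => ?_⟩
  refine h m d R hm hd N A F (fun s => ?_) hlim hF0 hPF
  obtain ⟨S, T, h1, h2⟩ := hS s
  exact lines_prod (A s) (hA s) S T h1 h2

/-- the form handed in earlier -/
theorem main_old (ε : ℝ) (hε : 0 < ε) : ∃ c : ℝ, 0 < c ∧ ∀ m R : ℕ, 1 ≤ m →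
    ∀ (N : ℕ → ℕ) (A : ∀ s, Matrix (Fin (N s)) (Fin (N s)) (MvPolynomial (Fin m × Fin m) ℂ))
      (F : MvPolynomial (Fin m × Fin m) ℂ),
      (∀ s i j, (A s i j).totalDegree ≤ 1) →
      (∀ s, ∃ S : Finset (Fin (N s)), S.card ≤ R ∧ ∀ i ∉ S, ∀ j, ∃ a : ℂ, A s i j = C a) →
      (∀ d, Tendsto (fun s => coeff d (A s).det) atTop (𝓝 (coeff d F))) →
      F ≠ 0 → permPoly m ∣ F → c * (m : ℝ) ^ (3 - ε) ≤ R := by
  obtain ⟨c, hc, h⟩ := main_lines ε hε
  refine ⟨c, hc, fun m R hm N A F hA hS hlim hF0 hPF => ?_⟩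
  have h1 := h m 1 R hm le_rfl N A F hA (fun s => by
    obtain ⟨S, h1, h2⟩ := hS s
    exact ⟨S, ∅, by simpa using h1, fun i hi j _ => h2 i hi j⟩) hlim hF0 hPF
  simpa using h1

end Pool.Agent.Work.MP_35c45d_lc.DH
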