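import Mathlib
import Pool.Agent.Work.MP_35c45d_lc.SQDetAlg

/-! Determinants of matrices of polynomials of any degree: the lift of a nondegenerate critical
point (generalises `SQDetAlg`). -/

set_option autoImplicit false
set_option linter.unusedSectionVars false

namespace Pool.Agent.Work.MP_35c45d_lc.DH

open MvPolynomial Matrix Pool.Agent.Work.MP_35c45d_lc.SQ

variable {ι : Type} [Fintype ι]

/-- the matrix of the values at `x` of the derivatives in the direction `i` -/
noncomputable def dMat {n : ℕ} (A : Matrix (Fin n) (Fin n) (MvPolynomial ι ℂ)) (x : ι → ℂ) (i : ι) :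
    Matrix (Fin n) (Fin n) ℂ :=
  fun a b => eval x (pderiv i (A a b))

/-- the matrix of the second derivatives at `x` in the directions `i` and `u` -/
noncomputable def hMat {n : ℕ} (A : Matrix (Fin n) (Fin n) (MvPolynomial ι ℂ)) (x u : ι → ℂ)
    (i : ι) : Matrix (Fin n) (Fin n) ℂ :=
  fun a b => Du x u (pderiv i (A a b))

/-- the point of the total space over a critical point. -/
theorem exists_lift {n' : ℕ} (A : Matrix (Fin (n' + 1)) (Fin (n' + 1)) (MvPolynomial ι ℂ))
    (c : ι → ℂ) (i0 : ι) (hc : c i0 ≠ 0) (x : ι → ℂ)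
    (hx : IsCrit A.det c x) (h00 : (evMat A x).adjugate 0 0 ≠ 0) :
    ∃ y z : Fin n' → ℂ,
      (∀ a, ∑ b, evMat A x a b * (Fin.cons 1 y : Fin (n' + 1) → ℂ) b = 0) ∧
      (∀ b, ∑ a, (Fin.cons 1 z : Fin (n' + 1) → ℂ) a * evMat A x a b = 0) ∧
      (∀ i, c i0 * (∑ a, ∑ b, (Fin.cons 1 z : Fin (n' + 1) → ℂ) a * dMat A x i a b *
          (Fin.cons 1 y : Fin (n' + 1) → ℂ) b) =
        c i * (∑ a, ∑ b, (Fin.cons 1 z : Fin (n' + 1) → ℂ) a * dMat A x i0 a b *
          (Fin.cons 1 y : Fin (n' + 1) → ℂ) b)) ∧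
      ∀ (u : ι → ℂ) (y' z' : Fin n' → ℂ),
        (∀ a, (∑ b, (∑ i, u i * dMat A x i a b) * (Fin.cons 1 y : Fin (n' + 1) → ℂ) b) +
          ∑ b, evMat A x a b * (Fin.cons 0 y' : Fin (n' + 1) → ℂ) b = 0) →
        (∀ b : Fin n', (∑ a, (Fin.cons 1 z : Fin (n' + 1) → ℂ) a *
            (∑ i, u i * dMat A x i a b.succ)) +
          ∑ a, (Fin.cons 0 z' : Fin (n' + 1) → ℂ) a * evMat A x a b.succ = 0) →
        (∀ i, i ≠ i0 → c i0 * (∑ a, ∑ b, ((Fin.cons 0 z' : Fin (n' + 1) → ℂ) a * dMat A x i a b *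
            (Fin.cons 1 y : Fin (n' + 1) → ℂ) b + (Fin.cons 1 z : Fin (n' + 1) → ℂ) a *
            dMat A x i a b * (Fin.cons 0 y' : Fin (n' + 1) → ℂ) b +
            (Fin.cons 1 z : Fin (n' + 1) → ℂ) a * hMat A x u i a b *
            (Fin.cons 1 y : Fin (n' + 1) → ℂ) b)) -
          c i * (∑ a, ∑ b, ((Fin.cons 0 z' : Fin (n' + 1) → ℂ) a * dMat A x i0 a b *
            (Fin.cons 1 y : Fin (n' + 1) → ℂ) b + (Fin.cons 1 z : Fin (n' + 1) → ℂ) a *
            dMat A x i0 a b * (Fin.cons 0 y' : Fin (n' + 1) → ℂ) b +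
            (Fin.cons 1 z : Fin (n' + 1) → ℂ) a * hMat A x u i0 a b *
            (Fin.cons 1 y : Fin (n' + 1) → ℂ) b)) = 0) →
        u = 0 ∧ y' = 0 ∧ z' = 0 := by
  obtain ⟨hf, ⟨lam, hlam, hgrad⟩, hnd⟩ := hx
  set M := evMat A x with hM
  have hdet : M.det = 0 := by rw [← evMat_det, hf]
  set κ := M.adjugate 0 0 with hκ
  set V : Fin (n' + 1) → ℂ := fun a => M.adjugate a 0 / κ with hV
  set W : Fin (n' + 1) → ℂ := fun b => M.adjugate 0 b / κ with hW
  have hV0 : V 0 = 1 := by rw [hV]; exact div_self h00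
  have hW0 : W 0 = 1 := by rw [hW]; exact div_self h00
  have hadj : ∀ a b, M.adjugate a b = κ * V a * W b := fun a b => adj_rank_one M hdet h00 a b
  have hMV : M *ᵥ V = 0 := by
    funext a
    have h1 := congrFun (congrFun (Matrix.mul_adjugate M) a) 0
    rw [hdet, zero_smul, Matrix.mul_apply] at h1
    have h2 : (M *ᵥ V) a = (∑ j, M a j * M.adjugate j 0) / κ := by
      rw [Finset.sum_div]
      simp only [Matrix.mulVec, dotProduct, hV, mul_div_assoc]
    rw [h2, h1]
    simp
  have hWM : W ᵥ* M = 0 := by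
    funext b
    have h1 := congrFun (congrFun (Matrix.adjugate_mul M) 0) b
    rw [hdet, zero_smul, Matrix.mul_apply] at h1
    have h2 : (W ᵥ* M) b = (∑ j, M.adjugate 0 j * M j b) / κ := by
      rw [Finset.sum_div]
      simp only [Matrix.vecMul, dotProduct, hW]
      refine Finset.sum_congr rfl fun j _ => ?_
      ring
    rw [h2, h1]
    simp
  have hVc : (Fin.cons 1 (fun k : Fin n' => V k.succ) : Fin (n' + 1) → ℂ) = V := by
    funext a
    refine Fin.cases ?_ (fun k => ?_) a
    · simp [hV0]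
    · simp
  have hWc : (Fin.cons 1 (fun k : Fin n' => W k.succ) : Fin (n' + 1) → ℂ) = W := by
    funext a
    refine Fin.cases ?_ (fun k => ?_) a
    · simp [hW0]
    · simp
  -- the gradient
  have hgr : ∀ i, eval x (pderiv i A.det) = κ * (W ⬝ᵥ (dMat A x i *ᵥ V)) := by
    intro i
    rw [jacobi (pderiv i) A, map_sum, ← bil_eq, Finset.sum_comm, Finset.mul_sum]
    refine Finset.sum_congr rfl fun a _ => ?_
    rw [map_sum, Finset.mul_sum]
    refine Finset.sum_congr rfl fun b _ => ?_
    rw [map_mul, evMat_adjugate, ← hM, hadj]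
    unfold dMat
    ring
  refine ⟨fun k => V k.succ, fun k => W k.succ, ?_, ?_, ?_, ?_⟩
  · rw [hVc]
    exact fun a => congrFun hMV a
  · rw [hWc]
    exact fun b => congrFun hWM b
  · intro i
    rw [hVc, hWc, bil_eq, bil_eq]
    have h1 := hgrad i
    have h2 := hgrad i0
    rw [hgr] at h1 h2
    have h3 : κ * (c i0 * (W ⬝ᵥ (dMat A x i *ᵥ V)) - c i * (W ⬝ᵥ (dMat A x i0 *ᵥ V))) = 0 := by
      linear_combination c i0 * h1 - c i * h2
    rcases mul_eq_zero.1 h3 with h4 | h4
    · exact absurd h4 h00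
    · exact sub_eq_zero.1 h4
  · intro u y' z'
    rw [hVc, hWc]
    set Y : Fin (n' + 1) → ℂ := Fin.cons 0 y' with hY
    set Z : Fin (n' + 1) → ℂ := Fin.cons 0 z' with hZ
    have hY0 : Y 0 = 0 := by rw [hY]; rfl
    have hZ0 : Z 0 = 0 := by rw [hZ]; rfl
    set Ad : Matrix (Fin (n' + 1)) (Fin (n' + 1)) ℂ := fun a b => ∑ i, u i * dMat A x i a b with hAd
    intro h1 h2 h3
    have h1' : Ad *ᵥ V + M *ᵥ Y = 0 := by
      funext a
      exact h1 a
    -- `W Ad V = 0`
    have hWAV : W ⬝ᵥ (Ad *ᵥ V) = 0 := by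
      have h4 := congrArg (fun v => W ⬝ᵥ v) h1'
      simp only [dotProduct_add, dotProduct_zero] at h4
      rw [Matrix.dotProduct_mulVec W M Y, hWM, zero_dotProduct, add_zero] at h4
      exact h4
    have h2' : W ᵥ* Ad + Z ᵥ* M = 0 := by
      have h5 : (W ᵥ* Ad + Z ᵥ* M) ⬝ᵥ V = 0 := by
        rw [add_dotProduct, ← Matrix.dotProduct_mulVec, ← Matrix.dotProduct_mulVec, hMV, hWAV]
        simp
      have h6 : ∀ b : Fin n', (W ᵥ* Ad + Z ᵥ* M) b.succ = 0 := fun b => h2 b
      have h7 : (W ᵥ* Ad + Z ᵥ* M) 0 = 0 := by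
        rw [dotProduct, Fin.sum_univ_succ, hV0, mul_one] at h5
        rw [Finset.sum_eq_zero (fun b _ => by rw [h6 b, zero_mul]), add_zero] at h5
        exact h5
      funext b
      exact Fin.cases h7 h6 b
    -- derivative of the adjugate
    set Pd : Matrix (Fin (n' + 1)) (Fin (n' + 1)) ℂ := fun a b => Du x u (A.adjugate a b) with hPd
    have hAd' : Ad = ∑ i, u i • dMat A x i := by
      ext a b
      rw [Matrix.sum_apply]
      rfl
    have hdu : Du x u A.det = 0 := by
      unfold Du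
      rw [Finset.sum_congr rfl fun i _ => by rw [hgr i]]
      have h8 : W ⬝ᵥ (Ad *ᵥ V) = ∑ i, u i * (W ⬝ᵥ (dMat A x i *ᵥ V)) := by
        rw [hAd', Matrix.sum_mulVec, dotProduct_sum]
        refine Finset.sum_congr rfl fun i _ => ?_
        rw [Matrix.smul_mulVec, dotProduct_smul, smul_eq_mul]
      have h9 : ∑ i, u i * (κ * (W ⬝ᵥ (dMat A x i *ᵥ V))) =
          κ * ∑ i, u i * (W ⬝ᵥ (dMat A x i *ᵥ V)) := by
        rw [Finset.mul_sum]
        refine Finset.sum_congr rfl fun i _ => ?_
        ring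
      rw [h9, ← h8, hWAV, mul_zero]
    have hone : ∀ a b : Fin (n' + 1), Du x u (A.det • (1 : Matrix (Fin (n' + 1)) (Fin (n' + 1))
        (MvPolynomial ι ℂ)) a b) = 0 := by
      intro a b
      rw [smul_eq_mul, Du_mul, hdu, hf, zero_mul, zero_mul, add_zero]
    have hid1 : ∀ a b, ∑ k, (Ad a k * M.adjugate k b + M a k * Pd k b) = 0 := by
      intro a b
      have h4 := congrArg (Du x u) (congrFun (congrFun (Matrix.mul_adjugate A) a) b)
      rw [Matrix.mul_apply, Matrix.smul_apply, hone, Du_sum] at h4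
      rw [← h4]
      refine Finset.sum_congr rfl fun k _ => ?_
      rw [Du_mul, evMat_adjugate]
      rfl
    have hid2 : ∀ a b, ∑ k, (Pd a k * M k b + M.adjugate a k * Ad k b) = 0 := by
      intro a b
      have h4 := congrArg (Du x u) (congrFun (congrFun (Matrix.adjugate_mul A) a) b)
      rw [Matrix.mul_apply, Matrix.smul_apply, hone, Du_sum] at h4
      rw [← h4]
      refine Finset.sum_congr rfl fun k _ => ?_
      rw [Du_mul, evMat_adjugate]
      rfl
    have hcol : ∀ a b, Pd a b = κ * W b * Y a + Pd 0 b * V a := by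
      intro a b
      have h4 := ker_zero M h00 (fun a => Pd a b - κ * W b * Y a - Pd 0 b * V a) (by
        funext a
        have e1 : (M *ᵥ fun a => Pd a b - κ * W b * Y a - Pd 0 b * V a) a =
            ∑ k, M a k * Pd k b - κ * W b * (M *ᵥ Y) a - Pd 0 b * (M *ᵥ V) a := by
          simp only [Matrix.mulVec, dotProduct, Finset.mul_sum]
          rw [← Finset.sum_sub_distrib, ← Finset.sum_sub_distrib]
          refine Finset.sum_congr rfl fun k _ => ?_
          ring
        have e2 := hid1 a b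
        rw [Finset.sum_add_distrib] at e2
        have e3 : ∑ k, Ad a k * M.adjugate k b = κ * W b * (Ad *ᵥ V) a := by
          simp only [Matrix.mulVec, dotProduct, Finset.mul_sum]
          refine Finset.sum_congr rfl fun k _ => ?_
          rw [hadj]
          ring
        have e4 := congrFun h1' a
        rw [Pi.add_apply, Pi.zero_apply] at e4
        rw [e1, hMV, Pi.zero_apply]
        rw [e3] at e2
        linear_combination e2 - κ * W b * e4) (by
        show Pd 0 b - κ * W b * Y 0 - Pd 0 b * V 0 = 0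
        rw [hY0, hV0]
        ring)
      have h5 := congrFun h4 a
      simp only [Pi.zero_apply] at h5
      linear_combination h5
    have hrow : ∀ a b, Pd a b = κ * V a * Z b + Pd a 0 * W b := by
      intro a b
      have h4 := ker_zero_left M h00 (fun b => Pd a b - κ * V a * Z b - Pd a 0 * W b) (by
        funext b
        have e1 : ((fun b => Pd a b - κ * V a * Z b - Pd a 0 * W b) ᵥ* M) b =
            ∑ k, Pd a k * M k b - κ * V a * (Z ᵥ* M) b - Pd a 0 * (W ᵥ* M) b := by
          simp only [Matrix.vecMul, dotProduct, Finset.mul_sum]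
          rw [← Finset.sum_sub_distrib, ← Finset.sum_sub_distrib]
          refine Finset.sum_congr rfl fun k _ => ?_
          ring
        have e2 := hid2 a b
        rw [Finset.sum_add_distrib] at e2
        have e3 : ∑ k, M.adjugate a k * Ad k b = κ * V a * (W ᵥ* Ad) b := by
          simp only [Matrix.vecMul, dotProduct, Finset.mul_sum]
          refine Finset.sum_congr rfl fun k _ => ?_
          rw [hadj]
          ring
        have e4 := congrFun h2' b
        rw [Pi.add_apply, Pi.zero_apply] at e4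
        rw [e1, hWM, Pi.zero_apply]
        rw [e3] at e2
        linear_combination e2 - κ * V a * e4) (by
        show Pd a 0 - κ * V a * Z 0 - Pd a 0 * W 0 = 0
        rw [hZ0, hW0]
        ring)
      have h5 := congrFun h4 b
      simp only [Pi.zero_apply] at h5
      linear_combination h5
    have hPdf : ∀ a b, Pd a b = κ * (W b * Y a + Z b * V a) + Pd 0 0 * (W b * V a) := by
      intro a b
      rw [hcol a b, hrow 0 b, hV0]
      ring
    -- second derivative
    have hsec : ∀ i, Du x u (pderiv i A.det) = κ * (Z ⬝ᵥ (dMat A x i *ᵥ V) +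
        W ⬝ᵥ (dMat A x i *ᵥ Y) + W ⬝ᵥ (hMat A x u i *ᵥ V)) +
        Pd 0 0 * (W ⬝ᵥ (dMat A x i *ᵥ V)) := by
      intro i
      have e1 : Du x u (pderiv i A.det) = ∑ a, ∑ b, (Pd a b * dMat A x i b a +
          M.adjugate a b * hMat A x u i b a) := by
        rw [jacobi (pderiv i) A, Du_sum]
        refine Finset.sum_congr rfl fun a _ => ?_
        rw [Du_sum]
        refine Finset.sum_congr rfl fun b _ => ?_
        rw [Du_mul, evMat_adjugate]
        rfl
      rw [e1, Finset.sum_comm, ← bil_eq, ← bil_eq, ← bil_eq, ← bil_eq, ← Finset.sum_add_distrib,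
        ← Finset.sum_add_distrib, Finset.mul_sum, Finset.mul_sum, ← Finset.sum_add_distrib]
      refine Finset.sum_congr rfl fun a _ => ?_
      rw [← Finset.sum_add_distrib, ← Finset.sum_add_distrib, Finset.mul_sum, Finset.mul_sum,
        ← Finset.sum_add_distrib]
      refine Finset.sum_congr rfl fun b _ => ?_
      rw [hPdf, hadj]
      ring
    have hT : ∀ i, Z ⬝ᵥ (dMat A x i *ᵥ V) + W ⬝ᵥ (dMat A x i *ᵥ Y) +
        W ⬝ᵥ (hMat A x u i *ᵥ V) =
        (Z ⬝ᵥ (dMat A x i0 *ᵥ V) + W ⬝ᵥ (dMat A x i0 *ᵥ Y) +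
          W ⬝ᵥ (hMat A x u i0 *ᵥ V)) / c i0 * c i := by
      intro i
      by_cases hi : i = i0
      · rw [hi]
        field_simp
      · have h4 := h3 i hi
        simp only [Finset.sum_add_distrib] at h4
        rw [bil_eq, bil_eq, bil_eq, bil_eq, bil_eq, bil_eq] at h4
        field_simp
        linear_combination h4
    have hu : u = 0 := by
      refine hnd u hdu ⟨κ * ((Z ⬝ᵥ (dMat A x i0 *ᵥ V) + W ⬝ᵥ (dMat A x i0 *ᵥ Y) +
        W ⬝ᵥ (hMat A x u i0 *ᵥ V)) / c i0) + Pd 0 0 * (lam / κ), fun i => ?_⟩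
      have h4 := hsec i
      have h5 : W ⬝ᵥ (dMat A x i *ᵥ V) = lam / κ * c i := by
        have h6 := hgr i
        rw [hgrad] at h6
        field_simp
        linear_combination -h6
      rw [hT i, h5] at h4
      have h7 : Du x u (pderiv i A.det) = ∑ j, u j * eval x (pderiv j (pderiv i A.det)) := rfl
      rw [← h7, h4]
      ring
    have hAd0 : Ad = 0 := by
      rw [hAd', hu]
      simp
    refine ⟨hu, ?_, ?_⟩
    · have h4 : Y = 0 := ker_zero M h00 Y (by
        rw [hAd0, Matrix.zero_mulVec, zero_add] at h1'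
        exact h1') hY0
      funext k
      have h5 := congrFun h4 k.succ
      rw [hY] at h5
      simpa using h5
    · have h4 : Z = 0 := ker_zero_left M h00 Z (by
        rw [hAd0, Matrix.vecMul_zero, zero_add] at h2'
        exact h2') hZ0
      funext k
      have h5 := congrFun h4 k.succ
      rw [hZ] at h5
      simpa using h5

end Pool.Agent.Work.MP_35c45d_lc.DH
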