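import Pool.Agent.Work.MP_35c45d_lc.DH.ThmA
import Pool.Agent.Work.MP_35c45d_lc.DH.Border
import Pool.Agent.Work.MP_35c45d_lc.MPMain

/-! Multiples of the permanent as (limits of) determinants of matrices of polynomials of degree at
most `d`: `d R + (d - 1) m ^ 2 ≥ c m ^ (3 - ε)`. -/

set_option autoImplicit false

namespace Pool.Agent.Work.MP_35c45d_lc.DH

open Finset MvPolynomial Filter Topology Pool.Agent.Work.MP_35c45d_lc.SQ
  Pool.Agent.Work.MP_35c45d_lc.MP

/-- **Theorem A**, border form. -/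
theorem theoremA_border {d n : ℕ} {ι κ : Type} [Fintype ι] [Fintype κ]
    {f : MvPolynomial ι ℂ} (hf : DH.BorderDet d n f) (c : ι → ℂ) (hc : c ≠ 0) (x : κ → ι → ℂ)
    (hinj : Function.Injective x) (hx : ∀ j, IsCrit f c (x j)) :
    (Fintype.card κ : ℝ) ≤
      (4 * Real.exp 1 * ((d * n + (d - 1) * Fintype.card ι : ℕ) : ℝ) / (Fintype.card ι : ℝ)) ^
        Fintype.card ι := by
  obtain ⟨A, γ, hA, x', hinj', hx'⟩ := DH.exists_det_of_borderDet hf hc hinj hx
  exact DH.theoremA A hA γ c hc x' hinj' hx'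

/-- **Count** for limits of determinants which are nonzero multiples of the permanent -/
theorem mult_count {m d n : ℕ} (hm : 1 ≤ m) {F : MvPolynomial (Fin m × Fin m) ℂ}
    (hF : DH.BorderDet d n F) (h0 : F ≠ 0) (hd : permPoly m ∣ F) {ι κ : Type} [Fintype ι]
    [Fintype κ]
    (φ : Fin m × Fin m → MvPolynomial ι ℂ) (hφ : ∀ q, (φ q).totalDegree ≤ 1)
    (c : ι → ℂ) (hc : c ≠ 0) (x : κ → ι → ℂ) (hinj : Function.Injective x)
    (hx : ∀ k, IsCrit (aeval φ (permPoly m)) c (x k)) :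
    (Fintype.card κ : ℝ) ≤
      (4 * Real.exp 1 * ((d * n + (d - 1) * Fintype.card ι : ℕ) : ℝ) / (Fintype.card ι : ℝ)) ^
        Fintype.card ι := by
  classical
  have hP := prime_permPoly hm
  obtain ⟨F', h, hF'0, hPF', hPh, hB⟩ := DH.border_reduce hP hF h0 hd
  obtain ⟨g, hg, hPg⟩ :=
    (FiniteMultiplicity.of_prime_left hP hF'0).exists_eq_pow_mul_and_not_dvd
  set a : ℕ := multiplicity (permPoly m) F' with ha
  have ha1 : 1 ≤ a := by
    by_contra hcon
    have h1 : a = 0 := by omega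
    rw [h1, pow_zero, one_mul] at hg
    exact hPg (hg ▸ hPF')
  have hW : ¬ permPoly m ∣ g * h := by
    intro hdv
    rcases hP.dvd_or_dvd hdv with h1 | h1
    · exact hPg h1
    · exact hPh h1
  obtain ⟨φ', c', x', hφ', hc', hinj', hx'⟩ := generic hm φ hφ c hc x hinj hx hW
  obtain ⟨U, hU, hdis⟩ := (Set.finite_range x').t2_separation
  have h1 : ∀ k, ∀ᶠ τ in 𝓝[≠] (0:ℂ), ∃ y ∈ U (x' k),
      IsCrit (aeval φ' (permPoly m) ^ a * aeval φ' g - C (τ ^ a) * aeval φ' h) c' y := by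
    intro k
    obtain ⟨hcr, hne⟩ := hx' k
    rw [map_mul, map_mul] at hne
    exact sheet _ _ _ a ha1 c' (x' k) hc' hcr (left_ne_zero_of_mul hne) (right_ne_zero_of_mul hne)
      (U (x' k)) ((hU (x' k)).2.mem_nhds (hU (x' k)).1)
  obtain ⟨τ, hτ⟩ := (eventually_all.2 h1).exists
  choose y hyU hy using hτ
  have hyinj : Function.Injective y := by
    intro j j' hjj
    by_contra hne
    have h2 := hdis ⟨j, rfl⟩ ⟨j', rfl⟩ (fun h => hne (hinj' h))
    exact Set.disjoint_left.1 h2 (hyU j) (hjj ▸ hyU j')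
  have hBτ : DH.BorderDet d n (aeval φ' (permPoly m) ^ a * aeval φ' g -
      C (τ ^ a) * aeval φ' h) := by
    have h2 := (hB (-(τ ^ a))).subst φ' hφ'
    have h3 : aeval φ' (F' + C (-(τ ^ a)) * h)
        = aeval φ' (permPoly m) ^ a * aeval φ' g - C (τ ^ a) * aeval φ' h := by
      rw [map_add, map_mul, hg, map_mul, map_pow, aeval_C, algebraMap_eq, C_neg]
      ring
    rwa [h3] at h2
  exact DH.theoremA_border hBτ c' hc' y hyinj hy

theorem mult_count_finset {m d n : ℕ} (hm : 1 ≤ m)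
    {F : MvPolynomial (Fin m × Fin m) ℂ}
    (hF : DH.BorderDet d n F) (h0 : F ≠ 0) (hd : permPoly m ∣ F) {ι : Type} [Fintype ι]
    (φ : Fin m × Fin m → MvPolynomial ι ℂ) (hφ : ∀ q, (φ q).totalDegree ≤ 1)
    (c : ι → ℂ) (hc : c ≠ 0) (S : Finset (ι → ℂ))
    (hx : ∀ x ∈ S, IsCrit (aeval φ (permPoly m)) c x) :
    (S.card : ℝ) ≤
      (4 * Real.exp 1 * ((d * n + (d - 1) * Fintype.card ι : ℕ) : ℝ) / (Fintype.card ι : ℝ)) ^
        Fintype.card ι := by
  have h := mult_count (κ := Fin S.card) hm hF h0 hd φ hφ c hc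
    (fun j => (S.equivFin.symm j : ι → ℂ))
    (fun a b hab => S.equivFin.symm.injective (Subtype.ext hab))
    (fun j => hx _ (S.equivFin.symm j).2)
  rwa [Fintype.card_fin] at h

/-- the dimension of a code is at most its length -/
theorem code_dim {s d D : ℕ} (hD : 1 ≤ D) (e : Fin d → Fin s → ℂ) (π : Fin d → Fin s → Fin D)
    (c : Fin d → Fin s → ℂ)
    (hcode : ∀ a a' j, ∑ x ∈ Finset.univ.filter (fun x => π a x = j), c a x * e a' x =
      if a = a' then 1 else 0) : d ≤ s := by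
  classical
  have h1 : ∀ a a', ∑ x, c a x * e a' x = if a = a' then (D : ℂ) else 0 := by
    intro a a'
    rw [← Finset.sum_fiberwise Finset.univ (π a) (fun x => c a x * e a' x),
      Finset.sum_congr rfl fun j _ => hcode a a' j]
    split_ifs <;> simp
  have hlin : LinearIndependent ℂ c := by
    rw [Fintype.linearIndependent_iff]
    intro g hg a'
    have h2 : ∑ x, (∑ a, g a • c a) x * e a' x = 0 := by
      rw [hg]
      simp
    have h3 : ∑ x, (∑ a, g a • c a) x * e a' x = g a' * D := by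
      have h4 : ∀ x, (∑ a, g a • c a) x * e a' x = ∑ a, g a * (c a x * e a' x) := by
        intro x
        rw [Finset.sum_apply, Finset.sum_mul]
        refine Finset.sum_congr rfl fun a _ => ?_
        rw [Pi.smul_apply, smul_eq_mul, mul_assoc]
      rw [Finset.sum_congr rfl fun x _ => h4 x, Finset.sum_comm]
      rw [Finset.sum_congr rfl fun a _ => (Finset.mul_sum _ _ _).symm]
      rw [Finset.sum_congr rfl fun a _ => by rw [h1 a a']]
      simp
    rw [h3] at h2
    rcases mul_eq_zero.1 h2 with h5 | h5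
    · exact h5
    · exfalso
      have : (D : ℂ) ≠ 0 := by exact_mod_cast (by omega : D ≠ 0)
      exact this h5
  have h2 := hlin.fintype_card_le_finrank
  rwa [Fintype.card_fin, Module.finrank_fin_fun] at h2

/-- for all large `m` -/
theorem mult_large (ε : ℝ) (hε : 0 < ε) (hε1 : ε < 1) :
    ∃ c : ℝ, 0 < c ∧ ∃ m₀ : ℕ, ∀ m, m₀ ≤ m → 1 ≤ m → ∀ (d n : ℕ)
      (F : MvPolynomial (Fin m × Fin m) ℂ), DH.BorderDet d n F → F ≠ 0 →
      permPoly m ∣ F → c * (m : ℝ) ^ (3 - ε) ≤ ((d * n + (d - 1) * m ^ 2 : ℕ) : ℝ) := by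
  obtain ⟨s0, d0, D0, e, π, c0, hD, hDs, hd, hcode, hsize⟩ := exists_code3 ε hε
  have hds : d0 ≤ s0 := code_dim (by omega) e π c0 hcode
  obtain ⟨c, hc, m₀, h⟩ := numerics ε hε1 hD hDs hd hsize
  refine ⟨c, hc, m₀, fun m hm hm1 d n F hF hF0 hPF => ?_⟩
  obtain ⟨k, n', hk, hn', hdk, hDn, hm', hfin⟩ := h m hm
  have hDk : 2 ≤ D0 ^ k := by
    calc 2 ≤ D0 := hD
      _ = D0 ^ 1 := (pow_one _).symm
      _ ≤ D0 ^ k := Nat.pow_le_pow_right (by omega) hk
  have hsec := section_main_sub (by omega) hd e (fun a x => some (π a x)) c0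
    (fun a b j => by simpa using hcode a b j) k m (J := Fin (n' * (D0 ^ k - 1)))
    (by rw [Fintype.card_fin]; exact hm') (by rw [Fintype.card_fin]; exact hDn)
    (T := Fin (d0 ^ k - 1)) (by rw [Fintype.card_fin]; omega)
  -- the number of variables of the section
  have hN : (n' * (d0 ^ k - 1)) * (D0 ^ k - 1) + 1 ≤ m ^ 2 := by
    have h1 : D0 ^ k ≤ ∑ i ∈ range k, d0 * D0 ^ (i + 1) * s0 ^ (k - 1 - i) := by
      have h2 := Finset.single_le_sum (f := fun i => d0 * D0 ^ (i + 1) * s0 ^ (k - 1 - i))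
        (fun i _ => Nat.zero_le _) (Finset.mem_range.2 (by omega : k - 1 < k))
      refine le_trans ?_ h2
      have h3 : k - 1 + 1 = k := by omega
      simp only [h3, Nat.sub_self, pow_zero, mul_one]
      exact Nat.le_mul_of_pos_left _ (by omega)
    have h4 : n' * (D0 ^ k - 1) ≤ m := by omega
    have h5 : d0 ^ k ≤ s0 ^ k := Nat.pow_le_pow_left hds k
    have h6 : s0 ^ k ≤ m := by omega
    have h7 : d0 ^ k - 1 ≤ m - 1 := by omega
    calc (n' * (d0 ^ k - 1)) * (D0 ^ k - 1) + 1 = (n' * (D0 ^ k - 1)) * (d0 ^ k - 1) + 1 := by ring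
      _ ≤ m * (m - 1) + 1 := Nat.add_le_add_right (Nat.mul_le_mul h4 h7) 1
      _ ≤ m ^ 2 := by
          obtain ⟨r, rfl⟩ : ∃ r, m = r + 1 := ⟨m - 1, by omega⟩
          rw [Nat.add_sub_cancel]
          nlinarith
  obtain ⟨q, hq⟩ : ∃ q, D0 ^ k = q + 1 := ⟨D0 ^ k - 1, by omega⟩
  have hqq : D0 ^ k - 1 = q := by omega
  have hgoal : c * (m : ℝ) ^ (3 - ε) ≤
      ((d * n + (d - 1) * ((n' * (d0 ^ k - 1)) * (D0 ^ k - 1) + 1) : ℕ) : ℝ) := by
    apply hfin
    rw [hqq] at hsec ⊢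
    rw [hq] at hsec
    obtain ⟨φ, hφ, γ, hγ, h1⟩ := hsec
    obtain ⟨c1, hc1, S, hS, hcrit⟩ := esym_crit (T := Fin (d0 ^ k - 1)) (J := Fin (n' * q))
      (q := q) (n' := n') (by omega) hn' (by rw [Fintype.card_fin])
    have h2 := mult_count_finset hm1 hF hF0 hPF φ hφ c1 hc1 S (by
      intro x hx
      rw [h1]
      exact isCrit_smul hγ (hcrit x hx))
    rw [hS, Fintype.card_option, Fintype.card_prod, Fintype.card_fin, Fintype.card_fin] at h2
    have h3 : (d0 ^ k - 1) * (n' * q) + 1 = n' * (d0 ^ k - 1) * q + 1 := by ring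
    rw [h3] at h2
    exact h2
  refine hgoal.trans ?_
  exact_mod_cast Nat.add_le_add_left (Nat.mul_le_mul_left (d - 1) hN) (d * n)

theorem mult_pos {m d n : ℕ} (hm : 1 ≤ m) {F : MvPolynomial (Fin m × Fin m) ℂ}
    (hF : DH.BorderDet d n F) (h0 : F ≠ 0) (hd : permPoly m ∣ F) : 1 ≤ n := by
  by_contra hn
  have hn0 : n = 0 := by omega
  subst hn0
  have h1 : F = C (coeff 0 F) := by
    ext e
    rw [coeff_C]
    split_ifs with hd0
    · rw [hd0]
    · obtain ⟨A, γ, _, h⟩ := hF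
      refine tendsto_nhds_unique (h e) ?_
      have h1 : ∀ s, coeff e (C (γ s) * (A s).det) = 0 := by
        intro s
        rw [Matrix.det_fin_zero, mul_one, coeff_C, if_neg hd0]
      simp only [h1]
      exact tendsto_const_nhds
  have h2 : coeff 0 F ≠ 0 := by
    intro h2
    rw [h2, C_0] at h1
    exact h0 h1
  apply (prime_permPoly hm).not_isUnit
  apply isUnit_of_dvd_unit hd
  rw [h1]
  exact (isUnit_iff_ne_zero.2 h2).map C

/-- **Nearly cubic lower bound for multiples**, entries of degree at most `d` -/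
theorem mult_main (ε : ℝ) (hε : 0 < ε) : ∃ c : ℝ, 0 < c ∧ ∀ m d n : ℕ, 1 ≤ m → 1 ≤ d →
    ∀ F : MvPolynomial (Fin m × Fin m) ℂ, DH.BorderDet d n F → F ≠ 0 → permPoly m ∣ F →
    c * (m : ℝ) ^ (3 - ε) ≤ ((d * n + (d - 1) * m ^ 2 : ℕ) : ℝ) := by
  set ε' : ℝ := min ε (1 / 2) with hε'
  obtain ⟨c, hc, m₀, h⟩ := mult_large ε' (lt_min hε (by norm_num))
    (lt_of_le_of_lt (min_le_right _ _) (by norm_num))
  have hle : ε' ≤ ε := min_le_left _ _
  have hle2 : ε' ≤ 1 / 2 := min_le_right _ _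
  refine ⟨min c (((m₀ : ℝ) + 1) ^ (-(3 - ε'))), lt_min hc (by positivity), ?_⟩
  intro m d n hm hd F hF hF0 hPF
  have hm1 : (1 : ℝ) ≤ m := by exact_mod_cast hm
  have hmono : (m : ℝ) ^ (3 - ε) ≤ (m : ℝ) ^ (3 - ε') :=
    Real.rpow_le_rpow_of_exponent_le hm1 (by linarith)
  rcases le_or_gt m₀ m with hmm | hmm
  · calc min c (((m₀ : ℝ) + 1) ^ (-(3 - ε'))) * (m : ℝ) ^ (3 - ε)
        ≤ c * (m : ℝ) ^ (3 - ε') := by
          apply mul_le_mul (min_le_left _ _) hmono (by positivity) hc.le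
      _ ≤ ((d * n + (d - 1) * m ^ 2 : ℕ) : ℝ) := h m hmm hm d n F hF hF0 hPF
  · have h1 : (1 : ℝ) ≤ ((d * n + (d - 1) * m ^ 2 : ℕ) : ℝ) := by
      have h2 : 1 * 1 ≤ d * n := Nat.mul_le_mul hd (mult_pos hm hF hF0 hPF)
      exact_mod_cast (by omega : 1 ≤ d * n + (d - 1) * m ^ 2)
    refine le_trans ?_ h1
    calc min c (((m₀ : ℝ) + 1) ^ (-(3 - ε'))) * (m : ℝ) ^ (3 - ε)
        ≤ ((m₀ : ℝ) + 1) ^ (-(3 - ε')) * (m : ℝ) ^ (3 - ε') := by
          apply mul_le_mul (min_le_right _ _) hmono (by positivity) (by positivity)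
      _ ≤ ((m₀ : ℝ) + 1) ^ (-(3 - ε')) * ((m₀ : ℝ) + 1) ^ (3 - ε') := by
          apply mul_le_mul_of_nonneg_left _ (by positivity)
          apply Real.rpow_le_rpow (by positivity) _ (by linarith)
          have : (m : ℝ) ≤ m₀ := by exact_mod_cast hmm.le
          linarith
      _ = 1 := by
          rw [← Real.rpow_add (by positivity)]
          simp

/-- **Main theorem**: matrices `A₀ + V W` of any size, `A₀`, `V` complex, `V` with `R` columns, `W`
of degree at most `d`. -/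
theorem main (ε : ℝ) (hε : 0 < ε) : ∃ c : ℝ, 0 < c ∧ ∀ m d R : ℕ, 1 ≤ m → 1 ≤ d →
    ∀ (N : ℕ → ℕ) (A : ∀ s, Matrix (Fin (N s)) (Fin (N s)) (MvPolynomial (Fin m × Fin m) ℂ))
      (F : MvPolynomial (Fin m × Fin m) ℂ),
      (∀ s, ∃ (A₀ : Fin (N s) → Fin (N s) → ℂ) (V : Fin (N s) → Fin R → ℂ)
        (W : Fin R → Fin (N s) → MvPolynomial (Fin m × Fin m) ℂ),
        (∀ r j, (W r j).totalDegree ≤ d) ∧
        ∀ i j, A s i j = C (A₀ i j) + ∑ r, C (V i r) * W r j) →
      (∀ e, Tendsto (fun s => coeff e (A s).det) atTop (𝓝 (coeff e F))) →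
      F ≠ 0 → permPoly m ∣ F → c * (m : ℝ) ^ (3 - ε) ≤ d * R + (d - 1) * (m : ℝ) ^ 2 := by
  obtain ⟨c, hc, h⟩ := mult_main ε hε
  refine ⟨c, hc, fun m d R hm hd N A F hA hlim hF0 hPF => ?_⟩
  rcases Nat.eq_zero_or_pos R with hR | hR
  · -- `R = 0`: `F` is constant
    exfalso
    subst hR
    have hconst : ∀ s, ∃ a : ℂ, (A s).det = C a := by
      intro s
      obtain ⟨A₀, V, W, -, hAs⟩ := hA s
      refine ⟨(Matrix.of A₀).det, ?_⟩
      have h1 : A s = (Matrix.of A₀).map C := by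
        ext1 i j
        rw [Matrix.map_apply, Matrix.of_apply, hAs]
        simp
      rw [h1, RingHom.map_det]
      rfl
    have hF : F = C (coeff 0 F) := by
      ext e
      rw [coeff_C]
      split_ifs with hd0
      · rw [hd0]
      · refine tendsto_nhds_unique (hlim e) ?_
        have h1 : ∀ s, coeff e (A s).det = 0 := by
          intro s
          obtain ⟨a, ha⟩ := hconst s
          rw [ha, coeff_C, if_neg hd0]
        simp only [h1]
        exact tendsto_const_nhds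
    have h2 : coeff 0 F ≠ 0 := by
      intro h2
      rw [h2, C_0] at hF
      exact hF0 hF
    apply (prime_permPoly hm).not_isUnit
    apply isUnit_of_dvd_unit hPF
    rw [hF]
    exact (isUnit_iff_ne_zero.2 h2).map C
  · have h1 : ∀ s, ∃ B : Matrix (Fin R) (Fin R) (MvPolynomial (Fin m × Fin m) ℂ),
        (∀ i j, (B i j).totalDegree ≤ d) ∧ B.det = (A s).det := by
      intro s
      obtain ⟨A₀, V, W, hW, hAs⟩ := hA s
      obtain ⟨B, hB, hdet⟩ := SD.exists_small_rank (R := R) (δ := d) hR (Matrix.of A₀)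
        (Matrix.of V) (Matrix.of W) hW
      refine ⟨B, hB, ?_⟩
      rw [hdet]
      congr 1
      refine Matrix.ext fun i j => ?_
      change C (A₀ i j) + ∑ r, C (V i r) * W r j = A s i j
      rw [hAs]
    choose B hB hBdet using h1
    have h2 := h m d R hm hd F ⟨B, fun _ => 1, hB, fun e => by
      simp only [map_one, one_mul, hBdet]
      exact hlim e⟩ hF0 hPF
    rw [Nat.cast_add, Nat.cast_mul, Nat.cast_mul, Nat.cast_sub hd, Nat.cast_one,
      Nat.cast_pow] at h2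
    exact h2

end Pool.Agent.Work.MP_35c45d_lc.DH
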