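import Pool.Agent.Work.MP_35c45d_lc.DH.Main

/-! Constant matrix plus a product `P K` of polynomial matrices with inner dimension `R`: reduction
to size `2 R`, and the final bound. -/

set_option autoImplicit false

namespace Pool.Agent.Work.MP_35c45d_lc.DH

open Finset MvPolynomial Filter Topology Pool.Agent.Work.MP_35c45d_lc.SQ
  Pool.Agent.Work.MP_35c45d_lc.MP

/-- `det (A₀ + P K)` is the determinant of a matrix of size `2 R` of degree at most `2 d`. -/
theorem exists_small_prod {ι : Type} {N R d : ℕ} (hR : 1 ≤ R)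
    (A : Matrix (Fin N) (Fin N) (MvPolynomial ι ℂ)) (A₀ : Fin N → Fin N → ℂ)
    (P : Fin N → Fin R → MvPolynomial ι ℂ) (K : Fin R → Fin N → MvPolynomial ι ℂ)
    (hP : ∀ i r, (P i r).totalDegree ≤ d) (hK : ∀ r j, (K r j).totalDegree ≤ d)
    (hA : ∀ i j, A i j = C (A₀ i j) + ∑ r, P i r * K r j) :
    ∃ B : Matrix (Fin (R + R)) (Fin (R + R)) (MvPolynomial ι ℂ),
      (∀ i j, (B i j).totalDegree ≤ 2 * d) ∧ B.det = A.det := by
  classical
  by_cases h0 : A.det = 0
  · refine ⟨0, fun i j => ?_, ?_⟩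
    · rw [Matrix.zero_apply, totalDegree_zero]
      exact Nat.zero_le _
    · rw [h0]
      have : Nonempty (Fin (R + R)) := ⟨⟨0, by omega⟩⟩
      exact Matrix.det_zero
  obtain ⟨x, hx⟩ : ∃ x : ι → ℂ, eval x A.det ≠ 0 := by
    by_contra hcon
    push Not at hcon
    exact h0 (MvPolynomial.funext fun x => by rw [hcon x, map_zero])
  let Q : Matrix (Fin N) (Fin N) ℂ := A.map (eval x)
  have hQdet : Q.det = eval x A.det := by
    simp only [Q]
    rw [RingHom.map_det]
    rfl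
  have hQ0 : Q.det ≠ 0 := by
    rw [hQdet]
    exact hx
  have hQu : IsUnit Q.det := isUnit_iff_ne_zero.2 hQ0
  let QC : Matrix (Fin N) (Fin N) (MvPolynomial ι ℂ) := Q.map C
  let QI : Matrix (Fin N) (Fin N) (MvPolynomial ι ℂ) := Q⁻¹.map C
  have hQQ : QC * QI = 1 := by
    have h1 : QC * QI = (Q * Q⁻¹).map C := (Matrix.map_mul).symm
    rw [h1, Matrix.mul_nonsing_inv _ hQu]
    exact Matrix.map_one _ (map_zero _) (map_one _)
  have hQCdet : QC.det = C Q.det := ((C : ℂ →+* MvPolynomial ι ℂ).map_det Q).symm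
  -- the two factors
  let PP : Matrix (Fin N) (Fin R ⊕ Fin R) (MvPolynomial ι ℂ) := Matrix.of fun i r =>
    Sum.elim (fun r => P i r) (fun r => P i r - C (eval x (P i r))) r
  let KK : Matrix (Fin R ⊕ Fin R) (Fin N) (MvPolynomial ι ℂ) := Matrix.of fun r j =>
    Sum.elim (fun r => K r j - C (eval x (K r j))) (fun r => C (eval x (K r j))) r
  have hPP : ∀ i r, (PP i r).totalDegree ≤ d := by
    intro i r
    rcases r with r | r
    · exact hP i r
    · refine (totalDegree_sub _ _).trans (max_le (hP i r) ?_)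
      rw [totalDegree_C]
      exact Nat.zero_le _
  have hKK : ∀ r j, (KK r j).totalDegree ≤ d := by
    intro r j
    rcases r with r | r
    · refine (totalDegree_sub _ _).trans (max_le (hK r j) ?_)
      rw [totalDegree_C]
      exact Nat.zero_le _
    · change (C (eval x (K r j))).totalDegree ≤ d
      rw [totalDegree_C]
      exact Nat.zero_le _
  have hAQ : A = QC + PP * KK := by
    ext1 i j
    have e1 : (PP * KK) i j = ∑ r, PP i r * KK r j := rfl
    have e2 : QC i j = C (A₀ i j) + ∑ r, C (eval x (P i r)) * C (eval x (K r j)) := by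
      simp only [QC, Q, Matrix.map_apply]
      rw [hA]
      simp only [map_add, map_sum, map_mul, eval_C]
    rw [Matrix.add_apply, e1, e2, hA, Fintype.sum_sum_type]
    simp only [PP, KK, Matrix.of_apply, Sum.elim_inl, Sum.elim_inr]
    rw [add_assoc, ← Finset.sum_add_distrib, ← Finset.sum_add_distrib]
    congr 1
    refine Finset.sum_congr rfl fun r _ => ?_
    ring
  let G : Matrix (Fin N) (Fin R ⊕ Fin R) (MvPolynomial ι ℂ) := QI * PP
  have hG : ∀ i r, (G i r).totalDegree ≤ d := by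
    intro i r
    have e1 : G i r = ∑ k, QI i k * PP k r := rfl
    rw [e1]
    refine totalDegree_finsetSum_le fun k _ => ?_
    refine (totalDegree_mul _ _).trans ?_
    have e2 : (QI i k).totalDegree = 0 := by
      simp only [QI, Matrix.map_apply, totalDegree_C]
    rw [e2, zero_add]
    exact hPP k r
  have hA1 : A = QC * (1 + G * KK) := by
    rw [Matrix.mul_add, Matrix.mul_one, ← Matrix.mul_assoc, ← Matrix.mul_assoc, hQQ,
      Matrix.one_mul]
    exact hAQ
  let δ : Fin R ⊕ Fin R → MvPolynomial ι ℂ := Function.update 1 (Sum.inl ⟨0, hR⟩) (C Q.det)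
  let B₀ : Matrix (Fin R ⊕ Fin R) (Fin R ⊕ Fin R) (MvPolynomial ι ℂ) :=
    Matrix.diagonal δ * (1 + KK * G)
  have hB₀ : ∀ i j, (B₀ i j).totalDegree ≤ 2 * d := by
    intro i j
    simp only [B₀]
    rw [Matrix.diagonal_mul]
    refine (totalDegree_mul _ _).trans ?_
    have h1 : (δ i).totalDegree = 0 := by
      by_cases hi : i = Sum.inl ⟨0, hR⟩
      · rw [hi]
        simp only [δ, Function.update_self, totalDegree_C]
      · simp only [δ, Function.update_of_ne hi, Pi.one_apply, totalDegree_one]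
    rw [h1, zero_add, Matrix.add_apply]
    refine (totalDegree_add _ _).trans (max_le ?_ ?_)
    · rw [Matrix.one_apply]
      split_ifs <;> simp
    · have e1 : (KK * G) i j = ∑ k, KK i k * G k j := rfl
      rw [e1]
      refine totalDegree_finsetSum_le fun k _ => ?_
      refine (totalDegree_mul _ _).trans ?_
      have := hKK i k
      have := hG k j
      omega
  have hdet : B₀.det = A.det := by
    simp only [B₀]
    rw [Matrix.det_mul, Matrix.det_diagonal, hA1, Matrix.det_mul, hQCdet,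
      Matrix.det_one_add_mul_comm]
    congr 1
    rw [Finset.prod_update_of_mem (Finset.mem_univ _)]
    simp
  refine ⟨B₀.submatrix finSumFinEquiv.symm finSumFinEquiv.symm, fun i j => hB₀ _ _, ?_⟩
  rw [Matrix.det_submatrix_equiv_self, hdet]

/-- numerics for `d = 1` -/
theorem small_case {c ε : ℝ} (hc : 0 < c) (hε : 0 ≤ ε) (hε2 : ε ≤ 1 / 2) {m R : ℕ} (hm : 1 ≤ m)
    (hR : 1 ≤ R) (h : c * (m : ℝ) ^ (3 - ε) ≤ 4 * R + (m : ℝ) ^ 2) :
    min (c / 8) (((1 + 4 / c ^ 2) ^ 3)⁻¹) * (m : ℝ) ^ (3 - ε) ≤ R := by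
  have hm1 : (1 : ℝ) ≤ m := by exact_mod_cast hm
  have hR1 : (1 : ℝ) ≤ R := by exact_mod_cast hR
  have hp : 0 < (m : ℝ) ^ (3 - ε) := by positivity
  rcases le_or_gt (4 / c ^ 2) (m : ℝ) with hm2 | hm2
  · have h1 : 2 / c ≤ (m : ℝ) ^ (1 / 2 : ℝ) := by
      rw [← Real.sqrt_eq_rpow]
      apply Real.le_sqrt_of_sq_le
      have e : (2 / c) ^ 2 = 4 / c ^ 2 := by rw [div_pow]; norm_num
      rw [e]
      exact hm2
    have h2 : (m : ℝ) ^ 2 * (m : ℝ) ^ (1 / 2 : ℝ) ≤ (m : ℝ) ^ (3 - ε) := by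
      rw [← Real.rpow_natCast, ← Real.rpow_add (by linarith)]
      apply Real.rpow_le_rpow_of_exponent_le hm1
      push_cast
      linarith
    have h3 : (m : ℝ) ^ 2 * (2 / c) ≤ (m : ℝ) ^ (3 - ε) :=
      le_trans (mul_le_mul_of_nonneg_left h1 (by positivity)) h2
    have h4 : (m : ℝ) ^ 2 ≤ c / 2 * (m : ℝ) ^ (3 - ε) := by
      calc (m : ℝ) ^ 2 = c / 2 * ((m : ℝ) ^ 2 * (2 / c)) := by field_simp
        _ ≤ _ := mul_le_mul_of_nonneg_left h3 (by positivity)
    calc min (c / 8) (((1 + 4 / c ^ 2) ^ 3)⁻¹) * (m : ℝ) ^ (3 - ε)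
        ≤ c / 8 * (m : ℝ) ^ (3 - ε) := mul_le_mul_of_nonneg_right (min_le_left _ _) hp.le
      _ ≤ R := by linarith
  · have h1 : (m : ℝ) ^ (3 - ε) ≤ (1 + 4 / c ^ 2) ^ 3 := by
      calc (m : ℝ) ^ (3 - ε) ≤ (m : ℝ) ^ (3 : ℝ) :=
            Real.rpow_le_rpow_of_exponent_le hm1 (by linarith)
        _ = (m : ℝ) ^ 3 := by norm_cast
        _ ≤ (1 + 4 / c ^ 2) ^ 3 := pow_le_pow_left₀ (by positivity) (by linarith) 3
    calc min (c / 8) (((1 + 4 / c ^ 2) ^ 3)⁻¹) * (m : ℝ) ^ (3 - ε)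
        ≤ ((1 + 4 / c ^ 2) ^ 3)⁻¹ * (m : ℝ) ^ (3 - ε) :=
          mul_le_mul_of_nonneg_right (min_le_right _ _) hp.le
      _ ≤ ((1 + 4 / c ^ 2) ^ 3)⁻¹ * (1 + 4 / c ^ 2) ^ 3 :=
          mul_le_mul_of_nonneg_left h1 (by positivity)
      _ = 1 := inv_mul_cancel₀ (by positivity)
      _ ≤ R := hR1

/-- **Main theorem**: matrices `A₀ + P K` of any size, `A₀` complex, `P` and `K` polynomial matrices
of degree at most `d` with inner dimension `R`. -/
theorem main_prod (ε : ℝ) (hε : 0 < ε) : ∃ c : ℝ, 0 < c ∧ ∀ m d R : ℕ, 1 ≤ m → 1 ≤ d →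
    ∀ (N : ℕ → ℕ) (A : ∀ s, Matrix (Fin (N s)) (Fin (N s)) (MvPolynomial (Fin m × Fin m) ℂ))
      (F : MvPolynomial (Fin m × Fin m) ℂ),
      (∀ s, ∃ (A₀ : Fin (N s) → Fin (N s) → ℂ)
        (P : Fin (N s) → Fin R → MvPolynomial (Fin m × Fin m) ℂ)
        (K : Fin R → Fin (N s) → MvPolynomial (Fin m × Fin m) ℂ),
        (∀ i r, (P i r).totalDegree ≤ d) ∧ (∀ r j, (K r j).totalDegree ≤ d) ∧
        ∀ i j, A s i j = C (A₀ i j) + ∑ r, P i r * K r j) →
      (∀ e, Tendsto (fun s => coeff e (A s).det) atTop (𝓝 (coeff e F))) →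
      F ≠ 0 → permPoly m ∣ F → c * (m : ℝ) ^ (3 - ε) ≤ d * R + (d - 1) * (m : ℝ) ^ 2 := by
  set ε' : ℝ := min ε (1 / 2) with hε'
  have hε'0 : 0 < ε' := lt_min hε (by norm_num)
  have hε'2 : ε' ≤ 1 / 2 := min_le_right _ _
  obtain ⟨c, hc, h⟩ := mult_main ε' hε'0
  have hc' : 0 < min (c / 8) (((1 + 4 / c ^ 2) ^ 3)⁻¹) := lt_min (by positivity) (by positivity)
  refine ⟨min (c / 8) (((1 + 4 / c ^ 2) ^ 3)⁻¹), hc', fun m d R hm hd N A F hA hlim hF0 hPF => ?_⟩
  have hm1 : (1 : ℝ) ≤ m := by exact_mod_cast hm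
  have hmono : (m : ℝ) ^ (3 - ε) ≤ (m : ℝ) ^ (3 - ε') :=
    Real.rpow_le_rpow_of_exponent_le hm1 (by linarith [min_le_left ε (1 / 2 : ℝ)])
  refine (mul_le_mul_of_nonneg_left hmono hc'.le).trans ?_
  rcases Nat.eq_zero_or_pos R with hR | hR
  · -- `R = 0`: `F` is constant
    exfalso
    subst hR
    have hconst : ∀ s, ∃ a : ℂ, (A s).det = C a := by
      intro s
      obtain ⟨A₀, P, K, -, -, hAs⟩ := hA s
      refine ⟨(Matrix.of A₀).det, ?_⟩
      have h1 : A s = (Matrix.of A₀).map C := by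
        ext1 i j
        rw [Matrix.map_apply, Matrix.of_apply, hAs]
        simp
      rw [h1, RingHom.map_det]
      rfl
    have hF : F = C (coeff 0 F) := by
      ext e
      rw [coeff_C]
      split_ifs with hd0
      · rw [hd0]
      · refine tendsto_nhds_unique (hlim e) ?_
        have h1 : ∀ s, coeff e (A s).det = 0 := by
          intro s
          obtain ⟨a, ha⟩ := hconst s
          rw [ha, coeff_C, if_neg hd0]
        simp only [h1]
        exact tendsto_const_nhds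
    have h2 : coeff 0 F ≠ 0 := by
      intro h2
      rw [h2, C_0] at hF
      exact hF0 hF
    apply (prime_permPoly hm).not_isUnit
    apply isUnit_of_dvd_unit hPF
    rw [hF]
    exact (isUnit_iff_ne_zero.2 h2).map C
  · have h1 : ∀ s, ∃ B : Matrix (Fin (R + R)) (Fin (R + R)) (MvPolynomial (Fin m × Fin m) ℂ),
        (∀ i j, (B i j).totalDegree ≤ 2 * d) ∧ B.det = (A s).det := by
      intro s
      obtain ⟨A₀, P, K, hP, hK, hAs⟩ := hA s
      exact exists_small_prod hR (A s) A₀ P K hP hK hAs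
    choose B hB hBdet using h1
    have h2 := h m (2 * d) (R + R) hm (by omega) F ⟨B, fun _ => 1, hB, fun e => by
      simp only [map_one, one_mul, hBdet]
      exact hlim e⟩ hF0 hPF
    have hcast : (((2 * d) * (R + R) + (2 * d - 1) * m ^ 2 : ℕ) : ℝ) =
        (2 * (d : ℝ)) * (R + R) + (2 * d - 1) * (m : ℝ) ^ 2 := by
      have e1 : ((2 * d - 1 : ℕ) : ℝ) = 2 * (d : ℝ) - 1 := by
        rw [Nat.cast_sub (by omega)]
        push_cast
        ring
      rw [Nat.cast_add, Nat.cast_mul, Nat.cast_mul (2 * d - 1), e1]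
      push_cast
      ring
    rw [hcast] at h2
    rcases Nat.lt_or_ge 1 d with hd2 | hd2
    · have hd3 : (2 : ℝ) ≤ d := by exact_mod_cast hd2
      have hp : 0 < (m : ℝ) ^ (3 - ε') := by positivity
      have hR0 : (0 : ℝ) ≤ R := Nat.cast_nonneg R
      have h3 : (2 * (d : ℝ)) * (R + R) + (2 * d - 1) * (m : ℝ) ^ 2 ≤
          8 * (d * R + (d - 1) * (m : ℝ) ^ 2) := by
        have h4 : 0 ≤ (d : ℝ) * R := by positivity
        have h5 : 0 ≤ (6 * (d : ℝ) - 7) * (m : ℝ) ^ 2 :=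
          mul_nonneg (by linarith) (by positivity)
        nlinarith
      have h6 : min (c / 8) (((1 + 4 / c ^ 2) ^ 3)⁻¹) * (m : ℝ) ^ (3 - ε') ≤
          c / 8 * (m : ℝ) ^ (3 - ε') := mul_le_mul_of_nonneg_right (min_le_left _ _) hp.le
      linarith
    · have hd1 : d = 1 := by omega
      subst hd1
      have h3 := small_case hc hε'0.le hε'2 hm hR (by
        refine h2.trans (le_of_eq ?_)
        push_cast
        ring)
      refine h3.trans (le_of_eq ?_)
      push_cast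
      ring

end Pool.Agent.Work.MP_35c45d_lc.DH
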