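import Mathlib
import Pool.Agent.Work.MP_35c45d_lc.SQDetPsi
import Pool.Agent.Work.MP_35c45d_lc.DH.Lift

/-! The square system over the critical points, entries of any degree: values and derivatives. -/

set_option autoImplicit false
set_option linter.unusedSectionVars false

namespace Pool.Agent.Work.MP_35c45d_lc.DH

open MvPolynomial Pool.Agent.Work.MP_35c45d_lc.SQ Pool.Agent.Work.MP_35c45d_lc.SQ.PsiAux

variable {ι : Type} [Fintype ι]

/-- The square system: `A v = 0`, `w A = 0` (all columns but the first), `w (d_i A) v` parallel to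
`c`. -/
noncomputable def Psi {n' : ℕ} (A : Matrix (Fin (n' + 1)) (Fin (n' + 1)) (MvPolynomial ι ℂ))
    (c : ι → ℂ) (i0 : ι) :
    Fin (n' + 1) ⊕ (Fin n' ⊕ {i : ι // i ≠ i0}) → MvPolynomial (ι ⊕ (Fin n' ⊕ Fin n')) ℂ
  | Sum.inl a => ∑ b, rename Sum.inl (A a b) * vP ι n' b
  | Sum.inr (Sum.inl b) => ∑ a, wP ι n' a * rename Sum.inl (A a b.succ)
  | Sum.inr (Sum.inr i) => ∑ a, ∑ b,
      (C (c i0) * rename Sum.inl (pderiv i.1 (A a b)) -
        C (c i.1) * rename Sum.inl (pderiv i0 (A a b))) * (wP ι n' a * vP ι n' b)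

theorem dd_sub {τ : Type} [Fintype τ] (p q : τ → ℂ) (f g : MvPolynomial τ ℂ) :
    dd p q (f - g) = dd p q f - dd p q g := by
  simp only [dd, map_sub, mul_sub, Finset.sum_sub_distrib]

theorem dd_rename {n' : ℕ} (x u : ι → ℂ) (y z y' z' : Fin n' → ℂ) (f : MvPolynomial ι ℂ) :
    dd (pt x y z) (pt u y' z') (rename Sum.inl f) = Du x u f := by
  classical
  have h1 : ∀ i : ι, pderiv (Sum.inl i : ι ⊕ (Fin n' ⊕ Fin n')) (rename Sum.inl f) =
      rename Sum.inl (pderiv i f) := fun i => pderiv_rename Sum.inl_injective i f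
  have h2 : ∀ k : Fin n' ⊕ Fin n', pderiv (Sum.inr k : ι ⊕ (Fin n' ⊕ Fin n'))
      (rename Sum.inl f) = 0 := by
    intro k
    apply pderiv_eq_zero_of_notMem_vars
    intro hk
    have h3 := vars_rename (Sum.inl : ι → ι ⊕ (Fin n' ⊕ Fin n')) f hk
    simp at h3
  unfold dd Du
  rw [Fintype.sum_sum_type]
  simp only [h1, h2, map_zero, mul_zero, Finset.sum_const_zero, add_zero]
  refine Finset.sum_congr rfl fun i _ => ?_
  rw [eval_renameA]
  rfl

theorem eval_Psi_inl {n' : ℕ} (A : Matrix (Fin (n' + 1)) (Fin (n' + 1)) (MvPolynomial ι ℂ))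
    (c : ι → ℂ) (i0 : ι) (x : ι → ℂ) (y z : Fin n' → ℂ) (a : Fin (n' + 1)) :
    eval (pt x y z) (Psi A c i0 (Sum.inl a)) =
      ∑ b, evMat A x a b * (Fin.cons 1 y : Fin (n' + 1) → ℂ) b := by
  simp only [Psi, map_sum, map_mul, eval_vP, eval_renameA, evMat]

theorem eval_Psi_inr_inl {n' : ℕ} (A : Matrix (Fin (n' + 1)) (Fin (n' + 1)) (MvPolynomial ι ℂ))
    (c : ι → ℂ) (i0 : ι) (x : ι → ℂ) (y z : Fin n' → ℂ) (b : Fin n') :
    eval (pt x y z) (Psi A c i0 (Sum.inr (Sum.inl b))) =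
      ∑ a, (Fin.cons 1 z : Fin (n' + 1) → ℂ) a * evMat A x a b.succ := by
  simp only [Psi, map_sum, map_mul, eval_wP, eval_renameA, evMat]

theorem eval_Psi_inr_inr {n' : ℕ} (A : Matrix (Fin (n' + 1)) (Fin (n' + 1)) (MvPolynomial ι ℂ))
    (c : ι → ℂ) (i0 : ι) (x : ι → ℂ) (y z : Fin n' → ℂ) (i : {i : ι // i ≠ i0}) :
    eval (pt x y z) (Psi A c i0 (Sum.inr (Sum.inr i))) =
      c i0 * (∑ a, ∑ b, (Fin.cons 1 z : Fin (n' + 1) → ℂ) a * dMat A x i.1 a b *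
        (Fin.cons 1 y : Fin (n' + 1) → ℂ) b) -
      c i.1 * (∑ a, ∑ b, (Fin.cons 1 z : Fin (n' + 1) → ℂ) a * dMat A x i0 a b *
        (Fin.cons 1 y : Fin (n' + 1) → ℂ) b) := by
  simp only [Psi, map_sum, map_mul, map_sub, eval_vP, eval_wP, eval_C, eval_renameA,
    Finset.mul_sum]
  simp only [← Finset.sum_sub_distrib]
  refine Finset.sum_congr rfl fun a _ => Finset.sum_congr rfl fun b _ => ?_
  unfold dMat
  ring

theorem deriv_Psi_inl {n' : ℕ} (A : Matrix (Fin (n' + 1)) (Fin (n' + 1)) (MvPolynomial ι ℂ))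
    (c : ι → ℂ) (i0 : ι) (x u : ι → ℂ) (y z y' z' : Fin n' → ℂ) (a : Fin (n' + 1)) :
    ∑ l, pt u y' z' l * eval (pt x y z) (pderiv l (Psi A c i0 (Sum.inl a))) =
      (∑ b, (∑ i, u i * dMat A x i a b) * (Fin.cons 1 y : Fin (n' + 1) → ℂ) b) +
      ∑ b, evMat A x a b * (Fin.cons 0 y' : Fin (n' + 1) → ℂ) b := by
  change dd (pt x y z) (pt u y' z') (Psi A c i0 (Sum.inl a)) = _
  simp only [Psi, dd_sum, dd_mul, dd_vP, eval_vP, eval_renameA]
  rw [← Finset.sum_add_distrib]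
  refine Finset.sum_congr rfl fun b _ => ?_
  rw [dd_rename x u y z y' z' (A a b)]
  rfl

theorem deriv_Psi_inr_inl {n' : ℕ} (A : Matrix (Fin (n' + 1)) (Fin (n' + 1)) (MvPolynomial ι ℂ))
    (c : ι → ℂ) (i0 : ι) (x u : ι → ℂ) (y z y' z' : Fin n' → ℂ) (b : Fin n') :
    ∑ l, pt u y' z' l * eval (pt x y z) (pderiv l (Psi A c i0 (Sum.inr (Sum.inl b)))) =
      (∑ a, (Fin.cons 1 z : Fin (n' + 1) → ℂ) a * (∑ i, u i * dMat A x i a b.succ)) +
      ∑ a, (Fin.cons 0 z' : Fin (n' + 1) → ℂ) a * evMat A x a b.succ := by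
  change dd (pt x y z) (pt u y' z') (Psi A c i0 (Sum.inr (Sum.inl b))) = _
  simp only [Psi, dd_sum, dd_mul, dd_wP, eval_wP, eval_renameA]
  rw [← Finset.sum_add_distrib]
  refine Finset.sum_congr rfl fun a _ => ?_
  rw [dd_rename x u y z y' z' (A a b.succ), add_comm]
  rfl

theorem deriv_Psi_inr_inr {n' : ℕ} (A : Matrix (Fin (n' + 1)) (Fin (n' + 1)) (MvPolynomial ι ℂ))
    (c : ι → ℂ) (i0 : ι) (x u : ι → ℂ) (y z y' z' : Fin n' → ℂ) (i : {i : ι // i ≠ i0}) :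
    ∑ l, pt u y' z' l * eval (pt x y z) (pderiv l (Psi A c i0 (Sum.inr (Sum.inr i)))) =
      c i0 * (∑ a, ∑ b, ((Fin.cons 0 z' : Fin (n' + 1) → ℂ) a * dMat A x i.1 a b *
        (Fin.cons 1 y : Fin (n' + 1) → ℂ) b + (Fin.cons 1 z : Fin (n' + 1) → ℂ) a *
        dMat A x i.1 a b * (Fin.cons 0 y' : Fin (n' + 1) → ℂ) b +
        (Fin.cons 1 z : Fin (n' + 1) → ℂ) a * hMat A x u i.1 a b *
        (Fin.cons 1 y : Fin (n' + 1) → ℂ) b)) -
      c i.1 * (∑ a, ∑ b, ((Fin.cons 0 z' : Fin (n' + 1) → ℂ) a * dMat A x i0 a b *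
        (Fin.cons 1 y : Fin (n' + 1) → ℂ) b + (Fin.cons 1 z : Fin (n' + 1) → ℂ) a *
        dMat A x i0 a b * (Fin.cons 0 y' : Fin (n' + 1) → ℂ) b +
        (Fin.cons 1 z : Fin (n' + 1) → ℂ) a * hMat A x u i0 a b *
        (Fin.cons 1 y : Fin (n' + 1) → ℂ) b)) := by
  change dd (pt x y z) (pt u y' z') (Psi A c i0 (Sum.inr (Sum.inr i))) = _
  simp only [Psi, dd_sum, dd_mul, dd_sub, dd_C, dd_rename, dd_wP, eval_wP, dd_vP, eval_vP,
    map_sub, map_mul, eval_C, eval_renameA, Finset.mul_sum]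
  simp only [← Finset.sum_sub_distrib]
  refine Finset.sum_congr rfl fun a _ => Finset.sum_congr rfl fun b _ => ?_
  unfold dMat hMat
  ring

end Pool.Agent.Work.MP_35c45d_lc.DH
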