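import Mathlib
import Pool.Agent.Work.MP_35c45d_lc.SQDetSupp
import Pool.Agent.Work.MP_35c45d_lc.DH.Psi

/-! Multidegrees of the system `Psi`, entries of degree at most `d`. -/

set_option autoImplicit false

namespace Pool.Agent.Work.MP_35c45d_lc.DH

open MvPolynomial Pool.Agent.Work.MP_35c45d_lc.SQ Pool.Agent.Work.MP_35c45d_lc.SQ.Supp

variable {ι : Type} [Fintype ι] {n' d : ℕ}

theorem degLe_rename (p : MvPolynomial ι ℂ) (hp : p.totalDegree ≤ d) :
    DegLe (n' := n') d 0 0 (rename Sum.inl p) := by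
  classical
  intro β hβ
  rw [support_rename_of_injective Sum.inl_injective, Finset.mem_image] at hβ
  obtain ⟨m, hm, rfl⟩ := hβ
  refine ⟨?_, ?_, ?_⟩
  · have h1 : ∀ i, Finsupp.mapDomain (Sum.inl : ι → ι ⊕ (Fin n' ⊕ Fin n')) m (Sum.inl i) = m i :=
      fun i => Finsupp.mapDomain_apply Sum.inl_injective m i
    simp only [h1]
    have h2 := (le_totalDegree hm).trans hp
    rwa [Finsupp.sum_fintype _ _ (by simp)] at h2
  · rw [Finset.sum_eq_zero]
    intro k _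
    exact Finsupp.mapDomain_of_notMem_range _ _ (by rintro ⟨i, hi⟩; cases hi)
  · rw [Finset.sum_eq_zero]
    intro k _
    exact Finsupp.mapDomain_of_notMem_range _ _ (by rintro ⟨i, hi⟩; cases hi)

theorem DegLe.neg' {d1 d2 d3 : ℕ} {p : MvPolynomial (ι ⊕ (Fin n' ⊕ Fin n')) ℂ}
    (hp : DegLe d1 d2 d3 p) : DegLe d1 d2 d3 (-p) := by
  intro β hβ
  rw [support_neg] at hβ
  exact hp β hβ

theorem totalDegree_pderiv_le' (p : MvPolynomial ι ℂ) (x : ι) (hp : p.totalDegree ≤ d) :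
    (pderiv x p).totalDegree ≤ d - 1 := by
  classical
  conv_lhs => rw [p.as_sum]
  rw [map_sum]
  refine totalDegree_finsetSum_le fun e he => ?_
  rw [pderiv_monomial]
  by_cases h0 : e x = 0
  · rw [h0]
    simp
  · refine (totalDegree_monomial_le _ _).trans ?_
    have h1 : (e - Finsupp.single x 1) + Finsupp.single x 1 = e :=
      tsub_add_cancel_of_le (Finsupp.single_le_iff.2 (by omega))
    have h2 := congrArg Finsupp.degree h1
    rw [map_add, Finsupp.degree_single] at h2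
    have h3 : e.degree ≤ p.totalDegree := by
      rw [Finsupp.degree_apply]
      exact le_totalDegree he
    have h4 : ((e - Finsupp.single x 1).sum fun _ => id) = (e - Finsupp.single x 1).degree := by
      rw [Finsupp.degree_apply]
      rfl
    rw [h4]
    omega

/-- multidegrees (d,1,0) -/
theorem supp_Psi_inl (A : Matrix (Fin (n' + 1)) (Fin (n' + 1)) (MvPolynomial ι ℂ))
    (hA : ∀ a b, (A a b).totalDegree ≤ d) (c : ι → ℂ) (i0 : ι) (a : Fin (n' + 1))
    (β : ι ⊕ (Fin n' ⊕ Fin n') →₀ ℕ) (hβ : β ∈ (Psi A c i0 (Sum.inl a)).support) :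
    ∑ i, β (Sum.inl i) ≤ d ∧ ∑ k, β (Sum.inr (Sum.inl k)) ≤ 1 ∧
      ∑ k, β (Sum.inr (Sum.inr k)) ≤ 0 := by
  have h : DegLe (ι := ι) (n' := n') d 1 0 (Psi A c i0 (Sum.inl a)) := by
    unfold Psi
    exact DegLe.sum _ fun b _ =>
      ((degLe_rename _ (hA a b)).mul (degLe_vP b)).mono (by omega) (by omega) (by omega)
  exact h β hβ

/-- multidegrees (d,0,1) -/
theorem supp_Psi_inr_inl (A : Matrix (Fin (n' + 1)) (Fin (n' + 1)) (MvPolynomial ι ℂ))
    (hA : ∀ a b, (A a b).totalDegree ≤ d) (c : ι → ℂ) (i0 : ι) (b : Fin n')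
    (β : ι ⊕ (Fin n' ⊕ Fin n') →₀ ℕ) (hβ : β ∈ (Psi A c i0 (Sum.inr (Sum.inl b))).support) :
    ∑ i, β (Sum.inl i) ≤ d ∧ ∑ k, β (Sum.inr (Sum.inl k)) ≤ 0 ∧
      ∑ k, β (Sum.inr (Sum.inr k)) ≤ 1 := by
  have h : DegLe (ι := ι) (n' := n') d 0 1 (Psi A c i0 (Sum.inr (Sum.inl b))) := by
    unfold Psi
    exact DegLe.sum _ fun a _ =>
      ((degLe_wP a).mul (degLe_rename _ (hA a b.succ))).mono (by omega) (by omega) (by omega)
  exact h β hβ

/-- multidegrees (d-1,1,1) -/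
theorem supp_Psi_inr_inr (A : Matrix (Fin (n' + 1)) (Fin (n' + 1)) (MvPolynomial ι ℂ))
    (hA : ∀ a b, (A a b).totalDegree ≤ d) (c : ι → ℂ) (i0 : ι) (i : {i : ι // i ≠ i0})
    (β : ι ⊕ (Fin n' ⊕ Fin n') →₀ ℕ) (hβ : β ∈ (Psi A c i0 (Sum.inr (Sum.inr i))).support) :
    ∑ i, β (Sum.inl i) ≤ d - 1 ∧ ∑ k, β (Sum.inr (Sum.inl k)) ≤ 1 ∧
      ∑ k, β (Sum.inr (Sum.inr k)) ≤ 1 := by
  have h : DegLe (ι := ι) (n' := n') (d - 1) 1 1 (Psi A c i0 (Sum.inr (Sum.inr i))) := by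
    unfold Psi
    refine DegLe.sum _ fun a _ => DegLe.sum _ fun b _ => ?_
    have h1 : ∀ (r : ℂ) (j : ι), DegLe (ι := ι) (n' := n') (d - 1) 0 0
        (C r * rename Sum.inl (pderiv j (A a b))) := fun r j =>
      ((DegLe.C r).mul (degLe_rename _ (totalDegree_pderiv_le' _ j (hA a b)))).mono
        (by omega) (by omega) (by omega)
    have h2 : DegLe (ι := ι) (n' := n') (d - 1) 0 0 (C (c i0) * rename Sum.inl (pderiv i.1 (A a b)) -
        C (c i.1) * rename Sum.inl (pderiv i0 (A a b))) := by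
      rw [sub_eq_add_neg]
      exact (h1 _ _).add (DegLe.neg' (h1 _ _))
    exact (h2.mul ((degLe_wP a).mul (degLe_vP b))).mono (by omega) (by omega) (by omega)
  exact h β hβ

end Pool.Agent.Work.MP_35c45d_lc.DH
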